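import Pool.Agent.N121.KH.Main

/-!
# The Grothendieck period conjecture in growing degree and height: all hyperelliptic curves over all number fields

Points `a` with coordinates in a number field `K` give polynomials `F_j = ∑ a_(j,k) x ^ k`, `k ≤ n_j + 1`, over `K` and the
hyperelliptic curves `y² = F_j(x)` over `K`, `1 ≤ j ≤ N`: all hyperelliptic curves of genus `g_j = ⌊n_j / 2⌋` over `K` (for
odd `n_j = 2 g_j + 1`), respectively those with a rational Weierstrass point at infinity (for even `n_j`). Nothing is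
supposed about the branch points, which generate extensions of `K` of arbitrary degree. The motivic torsor of the
product of the curves (restricted to the spaces `H¹` and to the multiplier) is contained in the torsor below, given by
the polarisations. Outside few hypersurfaces of small degree in the space of the coefficients (and in particular for
all but `T ^ (1 / ω(T)) N ^ (d - 1)` of the at most `N ^ d` points of height at most `T` in `K ^ d`, in compact parts of the
domain), every polynomial relation over `K` of degree `< ω(T)` and height at most `T ^ ω(T)` between the periods and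
`2πi` holds on the whole torsor, where `ω(T) → ∞`; uniformly in all number fields `K` of degree at most `ω(T)`.
-/

set_option autoImplicit false

open Polynomial NumberField Filter

namespace Pool.Agent.Results.MP_cbf1af_ag.AllCurvesAllNumberFields

variable {N : ℕ}

/-- twice the genus of the curves `y² = F(x)`, `F` of degree `m + 1` -/
abbrev dim (m : ℕ) : ℕ := 2 * (m / 2)

/-- the indices of the coefficients of the polynomials `F_j`, of degrees at most `n_j + 1` -/
abbrev Coef (n : Fin N → ℕ) : Type := Σ j, Fin (n j + 2)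

/-- the polynomials `F_j = ∑ a_(j,k) x ^ k`, `k ≤ n_j + 1` -/
noncomputable def pol (n : Fin N → ℕ) (a : Coef n → ℂ) (j : Fin N) : ℂ[X] :=
  ∑ k : Fin (n j + 2), C (a ⟨j, k⟩) * X ^ (k : ℕ)

/-- `F` has degree `m + 1` and its roots are `e`, in increasing order with respect to `re + im` (so they are
distinct) -/
def Branch {m : ℕ} (F : ℂ[X]) (e : Fin (m + 1) → ℂ) : Prop :=
  F.coeff (m + 1) ≠ 0 ∧ F = C (F.coeff (m + 1)) * ∏ r, (X - C (e r)) ∧
    ∀ r s, r < s → (e r).re + (e r).im < (e s).re + (e s).im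

/-- the domain: the `F_j` have degree `n_j + 1` and distinct roots, with distinct `re + im`, and their leading
coefficients are not `≤ 0` multiples of `1 + i` -/
def Dom (n : Fin N → ℕ) : Set (Coef n → ℂ) :=
  {a | ∀ j, a ⟨j, Fin.last (n j + 1)⟩ / (1 + Complex.I) ∈ Complex.slitPlane ∧ ∃ e, Branch (m := n j) (pol n a j) e}

/-- the points of the closed ball of radius `k` whose open ball of radius `1 / k` is contained in the domain (maximum
norm) -/
def Inner (n : Fin N → ℕ) (k : ℕ) : Set (Coef n → ℂ) := {a | ‖a‖ ≤ k ∧ Metric.ball a (k : ℝ)⁻¹ ⊆ Dom n}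

/-- a branch of the square root of `c ∏ (x - e i)`, for `x` on the segment from `e l` to `e (l + 1)`: all
arguments of the principal square roots have real part `≥ 0`, up to the first two (constant) factors -/
noncomputable def root {m : ℕ} (c : ℂ) (e : Fin (m + 1) → ℂ) (l : Fin m) (x : ℂ) : ℂ :=
  ((1 + Complex.I) ^ (1 / 2 : ℂ)) ^ (m + 2) * (c / (1 + Complex.I)) ^ (1 / 2 : ℂ) *
    Complex.I ^ (m % 2 + (l : ℕ) % 2) *
    ∏ i : Fin (m + 1), ((if (i : ℕ) ≤ l then x - e i else e i - x) / (1 + Complex.I)) ^ (1 / 2 : ℂ)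

/-- the point of the segment from `p` to `q` -/
noncomputable def seg (p q : ℂ) (t : ℝ) : ℂ := (1 - t) * p + t * q

/-- the period `∮ x ^ j dx / y`, `y² = c ∏ (x - e i)`, over the loop around the segment from `e l` to `e (l + 1)`, that
is twice the integral over the segment -/
noncomputable def period {m : ℕ} (c : ℂ) (e : Fin (m + 1) → ℂ) (l j : Fin m) : ℂ :=
  2 * ∫ t in (0 : ℝ)..1, (seg (e l.castSucc) (e l.succ) t) ^ (j : ℕ) /
    root c e l (seg (e l.castSucc) (e l.succ) t) * (e l.succ - e l.castSucc)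

/-- the `i`-th form is `∑ form m F i k * x ^ k dx / y`: for `i < g = ⌊m / 2⌋` it is `x ^ i dx / y`, and for `i = g + i'`
it is the form of the second kind `∑_(i'<k) (i' - k)/2 c_(i'+k+2) x ^ k dx / y`, where `F = ∑ c_k x ^ k` -/
noncomputable def form (m : ℕ) (F : ℂ[X]) (i k : ℕ) : ℂ :=
  if i < m / 2 then (if k = i then 1 else 0) else
    (if i - m / 2 < k then (((i - m / 2 : ℕ) : ℂ) - (k : ℂ)) / 2 * F.coeff (i - m / 2 + k + 2) else 0)

/-- the matrix of the periods of the `2 g` forms over the first `2 g` loops, `g = ⌊m / 2⌋` -/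
noncomputable def periods {m : ℕ} (F : ℂ[X]) (e : Fin (m + 1) → ℂ) : Matrix (Fin (dim m)) (Fin (dim m)) ℂ :=
  Matrix.of fun l i => ∑ k : Fin m,
    period (F.coeff (m + 1)) e (Fin.castLE (by unfold dim; omega) l) k * form m F (i : ℕ) (k : ℕ)

/-- the polarisation in terms of the forms: the standard symplectic matrix -/
def polDR (m : ℕ) : Matrix (Fin (dim m)) (Fin (dim m)) ℚ :=
  Matrix.of fun r s => if (s : ℕ) = r + m / 2 then 1 else if (r : ℕ) = s + m / 2 then -1 else 0

/-- the polarisation in terms of the loops: `2 (-1) ^ r` at `(r, s)`, `|r - s| = 1` -/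
def polB (m : ℕ) : Matrix (Fin (dim m)) (Fin (dim m)) ℚ :=
  Matrix.of fun r s => if (r : ℕ) = s + 1 ∨ (s : ℕ) = r + 1 then 2 * (-1) ^ (r : ℕ) else 0

/-- the complex points of the torsor: matrices `X_j` and `lam ≠ 0` with `X_j polDR X_jᵀ = lam polB` (a torsor under
`{(g_1, …, g_N) : g_j ∈ GSp_(2g_j), equal multipliers}`) -/
def Torsor (n : Fin N → ℕ) : Set ((∀ j, Matrix (Fin (dim (n j))) (Fin (dim (n j))) ℂ) × ℂ) :=
  {x | x.2 ≠ 0 ∧ ∀ j, x.1 j * (polDR (n j)).map (algebraMap ℚ ℂ) * (x.1 j).transpose =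
    x.2 • (polB (n j)).map (algebraMap ℚ ℂ)}

/-- the indices of the entries of the matrices -/
abbrev Ind (n : Fin N → ℕ) : Type := Σ j, Fin (dim (n j)) × Fin (dim (n j))

/-- the entries of the matrices `X_j` -/
def entries {n : Fin N → ℕ} (X : ∀ j, Matrix (Fin (dim (n j))) (Fin (dim (n j))) ℂ) : Ind n → ℂ :=
  fun q => X q.1 q.2.1 q.2.2

/-- the point with coordinates the entries of the matrices `X j` and `lam` -/
def point {n : Fin N → ℕ} (X : ∀ j, Matrix (Fin (dim (n j))) (Fin (dim (n j))) ℂ) (lam : ℂ) :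
    Option (Ind n) → ℂ := fun o => o.elim lam (entries X)

/-- every polynomial `P` of degree `< k` with coefficients in the ring of integers of `K`, all conjugates of the
coefficients being `≤ H` in absolute value, with `P(X, 2πi) = 0`, vanishes on the torsor; and every relation
`∑ ξ_b P_b(X) = 0`, `b < k`, with polynomials `P_b` of degree `≤ k` with such coefficients, holds on the fibre of the
torsor over `2πi` -/
def BoundedGPC (n : Fin N → ℕ) (k : ℕ) (K : Type) [Field K] [NumberField K] (φ : K →+* ℂ) (H : ℝ) (ξ : Fin k → ℂ)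
    (X : ∀ j, Matrix (Fin (dim (n j))) (Fin (dim (n j))) ℂ) : Prop :=
  (∀ P : MvPolynomial (Option (Ind n)) (𝓞 K), P.totalDegree < k →
      (∀ s (ψ : K →+* ℂ), ‖ψ (algebraMap (𝓞 K) K (P.coeff s))‖ ≤ H) →
      (P.map (φ.comp (algebraMap (𝓞 K) K))).eval (point X (2 * Real.pi * Complex.I)) = 0 →
      ∀ x ∈ Torsor n, (P.map (φ.comp (algebraMap (𝓞 K) K))).eval (point x.1 x.2) = 0) ∧
  ∀ P : Fin k → MvPolynomial (Ind n) (𝓞 K), (∀ b, (P b).totalDegree ≤ k) →
      (∀ b s (ψ : K →+* ℂ), ‖ψ (algebraMap (𝓞 K) K ((P b).coeff s))‖ ≤ H) →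
      ∑ b, ξ b * ((P b).map (φ.comp (algebraMap (𝓞 K) K))).eval (entries X) = 0 →
      ∀ Y, (Y, (2 * Real.pi * Complex.I : ℂ)) ∈ Torsor n →
        ∑ b, ξ b * ((P b).map (φ.comp (algebraMap (𝓞 K) K))).eval (entries Y) = 0

/-- `x` has height at most `T`: it is a quotient of algebraic integers `α / β` of `K`, all conjugates of `α` and `β` being
at most `T` in absolute value (`house`: the largest absolute value of a conjugate) -/
def HeightLe (K : Type) [Field K] [NumberField K] (T : ℝ) (x : K) : Prop :=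
  ∃ α β : 𝓞 K, β ≠ 0 ∧ house (α : K) ≤ T ∧ house (β : K) ≤ T ∧ x = α / β

/-- the exceptional tuples of curves: the points over `K` of height at most `T`, in the `k`-th compact part of the
domain, such that it is not true that the periods of the curves are generic with respect to the relations over `K` of
degree `≤ k` and height `≤ T ^ k` -/
def Exceptional (n : Fin N → ℕ) (k : ℕ) (K : Type) [Field K] [NumberField K] (φ : K →+* ℂ) (ξ : Fin k → ℂ) (T : ℝ) :
    Set (Coef n → K) :=
  {a | (∀ q, HeightLe K T (a q)) ∧ (fun q => φ (a q)) ∈ Inner n k ∧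
    ¬ ∃ e : ∀ j, Fin (n j + 1) → ℂ, (∀ j, Branch (pol n (fun q => φ (a q)) j) (e j)) ∧
      ((fun j => periods (pol n (fun q => φ (a q)) j) (e j)), (2 * Real.pi * Complex.I : ℂ)) ∈ Torsor n ∧
      BoundedGPC n k K φ (T ^ k) ξ (fun j => periods (pol n (fun q => φ (a q)) j) (e j))}

/-- Let `N ≥ 1`, `n_1, …, n_N` natural numbers and `d = ∑ (n_j + 2)`. There are `ω : ℝ → ℕ`, increasing with limit `∞`, and
`T₀` such that for all `T ≥ T₀`, all number fields `K ⊂ ℂ` of degree at most `ω(T)` and all complex numbers `ξ_b`,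
`b < ω(T)`: the exceptional points lie on at most `T ^ (1 / ω(T))` hypersurfaces of `ℂ ^ d` of degree at most
`T ^ (1 / ω(T))`, and there are at most `T ^ (1 / ω(T)) N_K(T) ^ (d - 1)` of them, where `N_K(T)` is the number of elements
of `K` of height at most `T`. -/
theorem result (hN : 1 ≤ N) (n : Fin N → ℕ) :
    ∃ (ω : ℝ → ℕ) (T₀ : ℝ), Tendsto ω atTop atTop ∧ Monotone ω ∧ ∀ T, T₀ ≤ T → 0 < ω T ∧
      ∀ (K : Type) [Field K] [NumberField K], Module.finrank ℚ K ≤ ω T → ∀ (φ : K →+* ℂ) (ξ : Fin (ω T) → ℂ),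
        (∃ 𝒮 : Finset (MvPolynomial (Coef n) ℂ), (𝒮.card : ℝ) ≤ T ^ ((ω T : ℝ)⁻¹) ∧
          (∀ P ∈ 𝒮, P ≠ 0 ∧ (P.totalDegree : ℝ) ≤ T ^ ((ω T : ℝ)⁻¹)) ∧
          ∀ a ∈ Exceptional n (ω T) K φ ξ T, ∃ P ∈ 𝒮, P.eval (fun q => φ (a q)) = 0) ∧
        (Exceptional n (ω T) K φ ξ T).Finite ∧
        ((Exceptional n (ω T) K φ ξ T).ncard : ℝ) ≤
          T ^ ((ω T : ℝ)⁻¹) * ({x : K | HeightLe K T x}.ncard : ℝ) ^ ((∑ j, (n j + 2)) - 1) := by
  have : Nonempty (Fin N) := ⟨⟨0, hN⟩⟩
  obtain ⟨ω, T₀, hω1, hω2, H⟩ := Pool.Agent.N121.KH.main n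
  refine ⟨ω, max T₀ 0, hω1, hω2, fun T hT => ?_⟩
  obtain ⟨h1, h2⟩ := H T ((le_max_left _ _).trans hT)
  have hT0 : 0 ≤ T := (le_max_right _ _).trans hT
  refine ⟨h1, fun K _ _ hK φ ξ => ?_⟩
  obtain ⟨h3, h4, h5⟩ := h2 K hK φ ξ
  have hpol : ∀ (a : Coef n → ℂ) (j : Fin N), pol n a j =
      Pool.Agent.N121.AH.fp (Pool.Agent.Y890.MV.pj a j) := fun a j => rfl
  have hlead : ∀ (a : Coef n → ℂ) (j : Fin N), (pol n a j).coeff (n j + 1) = a ⟨j, Fin.last (n j + 1)⟩ := by
    intro a j
    rw [hpol, Pool.Agent.N121.AH.fp_coeff, dif_pos (by omega)]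
    rfl
  have hbr : ∀ (a : Coef n → ℂ) (j : Fin N) (e : Fin (n j + 1) → ℂ), Branch (pol n a j) e ↔
      a ⟨j, Fin.last (n j + 1)⟩ ≠ 0 ∧ Pool.Agent.N121.AH.fp (Pool.Agent.Y890.MV.pj a j) =
        C (a ⟨j, Fin.last (n j + 1)⟩) * Pool.Agent.N121.OH.rp e ∧
        ∀ r s, r < s → (e r).re + (e r).im < (e s).re + (e s).im := by
    intro a j e
    unfold Branch
    rw [hlead]
    rfl
  have hne : ∀ z : ℂ, z / (1 + Complex.I) ∈ Complex.slitPlane → z ≠ 0 := by
    intro z hz h0
    rw [h0, zero_div] at hz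
    exact Complex.slitPlane_ne_zero hz rfl
  have hdom : Dom n = Pool.Agent.N121.KH.Dm n := by
    ext a
    unfold Dom Pool.Agent.N121.KH.Dm
    simp only [Set.mem_ofPred_eq]
    refine forall_congr' fun j => and_congr_right fun hj => exists_congr fun e => ?_
    rw [hbr]
    constructor
    · exact fun h => h.2
    · exact fun h => ⟨hne _ hj, h⟩
  have hroot : ∀ j (c : ℂ) (e : Fin (n j + 1) → ℂ) (l : Fin (n j)) (x : ℂ), root c e l x =
      Pool.Agent.N121.AH.rtG c e l x := by
    intro j c e l x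
    unfold root Pool.Agent.N121.AH.rtG Pool.Agent.N121.AH.scf Pool.Agent.N121.OH.rtF Pool.Agent.N121.AH.w0
      Pool.Agent.N121.AH.u0
    rw [pow_add Complex.I]
    ring
  have hper : ∀ (a : Coef n → ℂ) (e : ∀ j, Fin (n j + 1) → ℂ), (fun j => periods (pol n a j) (e j)) =
      Pool.Agent.N121.AH.PM n a e := by
    intro a e
    funext j
    ext l i
    unfold periods Pool.Agent.N121.AH.PM Pool.Agent.N121.AH.PF
    rw [Matrix.of_apply, Matrix.mul_apply]
    refine Finset.sum_congr rfl fun k _ => ?_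
    rw [Matrix.of_apply]
    congr 1
    unfold period Pool.Agent.N121.AH.perG
    simp only [hroot]
    rfl
  have htor : Torsor n = Pool.Agent.N121.AH.TorG n := by
    have hq : ∀ j, (polDR (n j)).map (algebraMap ℚ ℂ) = Pool.Agent.N121.AH.q0 ℂ (n j) := by
      intro j
      ext r s
      rw [Matrix.map_apply]
      unfold polDR Pool.Agent.N121.AH.q0
      rw [Matrix.of_apply, Matrix.of_apply]
      split_ifs <;> simp
    ext x
    unfold Torsor Pool.Agent.N121.AH.TorG
    simp only [Set.mem_ofPred_eq, hq]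
    rfl
  have hsub : Exceptional n (ω T) K φ ξ T ⊆ Pool.Agent.N121.KH.ExK n (ω T) K φ ξ T := by
    rintro a ⟨ha1, ha2, ha3⟩
    refine ⟨ha1, ?_, fun hcon => ha3 ?_⟩
    · unfold Inner at ha2
      rw [hdom] at ha2
      exact ha2
    · obtain ⟨e, he, hm, hg⟩ := hcon
      have hd : (fun q => φ (a q)) ∈ Dom n := ha2.2 (Metric.mem_ball_self (by
        have : (0 : ℝ) < ω T := by exact_mod_cast h1
        positivity))
      refine ⟨e, fun j => (hbr _ _ _).2 ⟨hne _ (hd j).1, he j⟩, ?_, ?_⟩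
      · rw [hper, htor]
        exact hm
      · rw [hper]
        refine ⟨fun P hP1 hP2 hP3 x hx => ?_, fun P hP1 hP2 hP3 Y hY => ?_⟩
        · rw [htor] at hx
          exact hg.1 P hP1 hP2 hP3 x hx
        · rw [htor] at hY
          exact hg.2 P hP1 hP2 hP3 Y hY
  have hcard : Fintype.card (Coef n) = ∑ j, (n j + 2) := by
    rw [Fintype.card_sigma]
    simp only [Fintype.card_fin]
  have hpos : (0 : ℝ) ≤ T ^ ((ω T : ℝ)⁻¹) := Real.rpow_nonneg hT0 _
  refine ⟨?_, h4.subset hsub, ?_⟩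
  · obtain ⟨Φ, hΦ1, hΦ2, hΦ3⟩ := h3
    refine ⟨Φ, (Nat.le_floor_iff hpos).1 hΦ1, fun P hP => ⟨(hΦ2 P hP).1, (Nat.le_floor_iff hpos).1 (hΦ2 P hP).2⟩, ?_⟩
    intro a ha
    exact hΦ3 _ ⟨a, hsub ha, rfl⟩
  · rw [← hcard]
    refine le_trans ?_ h5
    exact_mod_cast Set.ncard_le_ncard hsub h4

end Pool.Agent.Results.MP_cbf1af_ag.AllCurvesAllNumberFields
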