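import Pool.Agent.N671.DA.Win
import Pool.Agent.Results.MP_cbf1af_ag.HypergeometricTorsors

/-!
# Period torsors near functions of the denominators of good approximations

Let `α_1, …, α_l` be real numbers. We consider the natural numbers `q` with `‖q α_j - b_j‖ ≤ c' q^(-τ)` for all `j`, `‖x‖` the
distance to the nearest integer; for `b = 0`, `c' = 1`, `τ = 1 / l` these include the denominators of all best simultaneous
approximations (the denominators of the convergents for `l = 1`). They form a very sparse sequence, with gaps growing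
exponentially for almost all `α` if `τ = 1 / l`. Let `M_t` be the hypergeometric object with parameters `±β` at the point
`z = 1 / t`, as in the starting theorem `HypergeometricTorsors` of this problem; `K` a number field, `M_0` any object over
`K`. We show that there is `c > 0`, which only depends on `β`, the degree of `K` and the rank of `M_0`, such that for every
function `G` with steps bounded below by a positive constant and growth at most `v^d`, for example `G v = v`, and for all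
`α` in `ℝ^l` outside a set of Hausdorff dimension at most `(l + d (1 - c) + κ) / (1 + τ)`, for all but finitely many such `q`
and for EVERY natural number `t` with `|t - G q| ≤ q^κ` all `K`-subtorsors which contain the period matrix of
`M_0 ⊕ ℚ(-1) ⊕ K(t) ⊕ M_t` are stable under `G_a × Sp`, and the smallest one which respects the structures is the fibre
product predicted by the period conjecture. For `τ = 1 / l` the bound is less than `l` if `d (1 - c) + κ < 1`; and so the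
statement holds for almost all `α`.

Proof. The `q` such that some exceptional `t` is near `G q` form a set with `O(X^(d (1 - c) + κ + ε))` elements up to `X`, by
the starting theorem; and the `α` with `‖q α_j - b_j‖ ≤ c' q^(-τ)` for all `j` and infinitely many `q` of such a set are
covered by few small cubes.
-/

set_option autoImplicit false

namespace Pool.Agent.Results.MP_cbf1af_ag.SimultaneousApproximations

open Pool.Agent.N671.DA (Solves Expanding expanding_pow approx_good_nat)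
open Pool.Agent.Results.MP_cbf1af_ag.HypergeometricTorsors (Stable FibreProducts)

/-- the number of exceptional fibres -/
theorem count (m : ℕ) (hm : 1 ≤ m) (β : Fin m → ℚ) (hβ : ∀ j, ∀ a : ℤ, β j ≠ a) (D r : ℕ) :
    ∃ c : ℝ, 0 < c ∧ c ≤ 1 ∧ ∃ C : ℝ, ∀ K : Subfield ℂ, FiniteDimensional ℚ K → Module.finrank ℚ K ≤ D →
      ∀ C₀ : Matrix (Fin r) (Fin r) ℂ, IsUnit C₀ → ∀ Ω : Matrix (Fin (2 * m)) (Fin (2 * m)) ℂ, IsUnit Ω →
      ∀ X : ℕ, 1 ≤ X → ({t : ℕ | 1 ≤ t ∧ t ≤ X ∧ True ∧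
        ¬ (Stable K C₀ (fun _ : Fin 1 => β) (fun _ => Ω) (fun _ => t) ∧
          FibreProducts K C₀ (fun _ : Fin 1 => β) (fun _ => Ω) (fun _ => t))}.ncard : ℝ) ≤ C * (X : ℝ) ^ (1 - c) := by
  obtain ⟨c, C, hc, h⟩ := HypergeometricTorsors.result 1 (fun _ => m) (fun _ => hm) (fun _ => β) (fun _ => hβ) D r
  refine ⟨min c 1, lt_min hc one_pos, min_le_right _ _, 2 * |C| + 1, fun K hK hKD C₀ hC₀ Ω hΩ X hX => ?_⟩
  obtain ⟨P, hP⟩ : ∃ P : ℕ → Prop, P = fun t => Stable K C₀ (fun _ : Fin 1 => β) (fun _ => Ω) (fun _ => t) ∧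
    FibreProducts K C₀ (fun _ : Fin 1 => β) (fun _ => Ω) (fun _ => t) := ⟨_, rfl⟩
  have h1 := h K hK hKD C₀ hC₀ (fun _ => Ω) (fun _ => hΩ) (fun _ => 1) X (fun _ => le_rfl) hX
  have hX1 : (1 : ℝ) ≤ X := by exact_mod_cast hX
  have e1 : {t : ℕ | 1 ≤ t ∧ t ≤ X ∧ True ∧ ¬ (Stable K C₀ (fun _ : Fin 1 => β) (fun _ => Ω) (fun _ => t) ∧
      FibreProducts K C₀ (fun _ : Fin 1 => β) (fun _ => Ω) (fun _ => t))} ⊆
      insert 1 ((fun t : Fin 1 → ℕ => t 0) '' {t : Fin 1 → ℕ | (∀ i, 1 < t i ∧ t i ≤ 1 + X) ∧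
        ¬ (Stable K C₀ (fun _ : Fin 1 => β) (fun _ => Ω) t ∧ FibreProducts K C₀ (fun _ : Fin 1 => β) (fun _ => Ω) t)}) := by
    rintro t ⟨g1, g2, -, g3⟩
    rcases Nat.eq_or_lt_of_le g1 with g4 | g4
    · exact Set.mem_insert_iff.2 (Or.inl g4.symm)
    · exact Set.mem_insert_iff.2 (Or.inr ⟨fun _ => t, ⟨fun _ => ⟨g4, (by omega : t ≤ 1 + X)⟩, g3⟩, rfl⟩)
  have hfin : {t : Fin 1 → ℕ | (∀ i, 1 < t i ∧ t i ≤ 1 + X) ∧
      ¬ (Stable K C₀ (fun _ : Fin 1 => β) (fun _ => Ω) t ∧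
        FibreProducts K C₀ (fun _ : Fin 1 => β) (fun _ => Ω) t)}.Finite := by
    refine (Set.finite_Iic (fun _ : Fin 1 => 1 + X)).subset ?_
    intro t ht i
    exact (ht.1 i).2
  have h2 := (Set.ncard_le_ncard e1 ((hfin.image _).insert 1)).trans
    ((Set.ncard_insert_le _ _).trans (Nat.add_le_add_right (Set.ncard_image_le hfin) 1))
  have h3 : (C : ℝ) * ((X : ℕ) : ℝ) ^ (1 - 1) * ∑ _i : Fin 1, (1 + (X : ℝ) / (((1 : ℕ) : ℝ) + X) ^ c) ≤
      2 * |C| * (X : ℝ) ^ (1 - min c 1) := by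
    have h4 : (1 : ℝ) ≤ (X : ℝ) ^ (1 - min c 1) := Real.one_le_rpow hX1 (by linarith [min_le_right c 1])
    have h5 : (X : ℝ) / (((1 : ℕ) : ℝ) + X) ^ c ≤ (X : ℝ) ^ (1 - min c 1) := by
      have h6 : (X : ℝ) ^ (min c 1) ≤ (((1 : ℕ) : ℝ) + X) ^ c := by
        calc (X : ℝ) ^ (min c 1) ≤ (X : ℝ) ^ c := Real.rpow_le_rpow_of_exponent_le hX1 (min_le_left _ _)
          _ ≤ (((1 : ℕ) : ℝ) + X) ^ c := Real.rpow_le_rpow (by positivity) (by push_cast; linarith) hc.le
      have h7 : 0 < (X : ℝ) ^ (min c 1) := by positivity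
      calc (X : ℝ) / (((1 : ℕ) : ℝ) + X) ^ c ≤ (X : ℝ) / (X : ℝ) ^ (min c 1) :=
            div_le_div_of_nonneg_left (by positivity) h7 h6
        _ = (X : ℝ) ^ (1 - min c 1) := by
            rw [Real.rpow_sub (by linarith), Real.rpow_one]
    rw [Finset.sum_const, Finset.card_univ, Fintype.card_fin, one_smul, Nat.sub_self, pow_zero, mul_one]
    calc C * (1 + (X : ℝ) / (((1 : ℕ) : ℝ) + X) ^ c) ≤ |C| * (1 + (X : ℝ) / (((1 : ℕ) : ℝ) + X) ^ c) :=
          mul_le_mul_of_nonneg_right (le_abs_self C) (by positivity)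
      _ ≤ |C| * ((X : ℝ) ^ (1 - min c 1) + (X : ℝ) ^ (1 - min c 1)) :=
          mul_le_mul_of_nonneg_left (add_le_add h4 h5) (abs_nonneg C)
      _ = 2 * |C| * (X : ℝ) ^ (1 - min c 1) := by ring
  have h8 : (1 : ℝ) ≤ (X : ℝ) ^ (1 - min c 1) := Real.one_le_rpow hX1 (by linarith [min_le_right c 1])
  have h9 := h1.trans h3
  calc _ ≤ (({t : Fin 1 → ℕ | (∀ i, 1 < t i ∧ t i ≤ 1 + X) ∧
      ¬ (Stable K C₀ (fun _ : Fin 1 => β) (fun _ => Ω) t ∧
        FibreProducts K C₀ (fun _ : Fin 1 => β) (fun _ => Ω) t)}.ncard : ℕ) : ℝ) + 1 := by exact_mod_cast h2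
    _ ≤ 2 * |C| * (X : ℝ) ^ (1 - min c 1) + (X : ℝ) ^ (1 - min c 1) := add_le_add h9 h8
    _ = (2 * |C| + 1) * (X : ℝ) ^ (1 - min c 1) := by ring

/-- **Period torsors near the denominators of good approximations.** Let `β_1, …, β_m`, `m ≥ 1`, be rational numbers which
are not integers. For all `D` and `r` there is `0 < c ≤ 1` such that for every number field `K ⊂ ℂ` of degree `≤ D`, every
invertible `r × r` matrix `C₀` and every invertible matrix `Ω`, every `G` with steps `≥ a > 0` and growth at most `v^d`, every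
`0 ≤ κ ≤ 1`, `b` in `ℝ^l` and `τ > 0`: for all `α` in `ℝ^l` outside a set of Hausdorff dimension at most
`(l + d (1 - c) + κ) / (1 + τ)` and all `c'`, for all large `q` with `‖q α_j - b_j‖ ≤ c' q^(-τ)` for all `j`, the conclusions
of the starting theorem `HypergeometricTorsors` (`Stable` and `FibreProducts`) hold at EVERY natural number `t ≥ 1` with
`|t - G q| ≤ q^κ`. The functions `a v^d` with `a > 0`, `d ≥ 1` are examples of `G`. -/
theorem result (m : ℕ) (hm : 1 ≤ m) (β : Fin m → ℚ) (hβ : ∀ j, ∀ a : ℤ, β j ≠ a) (D r : ℕ) :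
    (∃ c : ℝ, 0 < c ∧ c ≤ 1 ∧ ∀ K : Subfield ℂ, FiniteDimensional ℚ K → Module.finrank ℚ K ≤ D →
      ∀ C₀ : Matrix (Fin r) (Fin r) ℂ, IsUnit C₀ → ∀ Ω : Matrix (Fin (2 * m)) (Fin (2 * m)) ℂ, IsUnit Ω →
      ∀ (G : ℕ → ℝ) (d κ : ℝ), Expanding G d → 0 ≤ κ → κ ≤ 1 → ∀ (l : ℕ) (b : Fin l → ℝ) (τ : ℝ), 0 < τ →
      ∃ E : Set (Fin l → ℝ), dimH E ≤ ENNReal.ofReal ((l + (d * (1 - c) + κ)) / (1 + τ)) ∧
        ∀ α, α ∉ E → ∀ c' : ℝ, ∃ Q : ℕ, ∀ q : ℕ, Q ≤ q → Solves α b q (c' * (q : ℝ) ^ (-τ)) →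
          ∀ t : ℕ, 1 ≤ t → |(t : ℝ) - G q| ≤ (q : ℝ) ^ κ →
            Stable K C₀ (fun _ : Fin 1 => β) (fun _ => Ω) (fun _ => t) ∧
              FibreProducts K C₀ (fun _ : Fin 1 => β) (fun _ => Ω) (fun _ => t)) ∧
    ∀ a d : ℝ, 0 < a → 1 ≤ d → Expanding (fun v => a * (v : ℝ) ^ d) d := by
  refine ⟨?_, fun a d ha hd => expanding_pow ha hd⟩
  obtain ⟨c, hc, hc1, C, h⟩ := count m hm β hβ D r
  refine ⟨c, hc, hc1, fun K hK hKD C₀ hC₀ Ω hΩ G d κ hG hκ hκ1 l b τ hτ => ?_⟩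
  obtain ⟨E, hE, hE2⟩ := approx_good_nat (fun _ => True)
    (fun t => Stable K C₀ (fun _ : Fin 1 => β) (fun _ => Ω) (fun _ => t) ∧
      FibreProducts K C₀ (fun _ : Fin 1 => β) (fun _ => Ω) (fun _ => t)) hG (s := 1 - c) (κ := κ) (by linarith) hκ hκ1
    (fun ε hε => ⟨|C|, fun X hX => by
      have hX1 : (1 : ℝ) ≤ X := by exact_mod_cast hX
      calc _ ≤ C * (X : ℝ) ^ (1 - c) := h K hK hKD C₀ hC₀ Ω hΩ X hX
        _ ≤ |C| * (X : ℝ) ^ (1 - c) := mul_le_mul_of_nonneg_right (le_abs_self C) (by positivity)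
        _ ≤ |C| * (X : ℝ) ^ (1 - c + ε) := mul_le_mul_of_nonneg_left
            (Real.rpow_le_rpow_of_exponent_le hX1 (by linarith)) (abs_nonneg C)⟩) b hτ
  refine ⟨E, hE, fun α hα c' => ?_⟩
  obtain ⟨Q, hQ⟩ := hE2 α hα c'
  exact ⟨Q, fun q hq h1 t ht h2 => hQ q hq h1 t ht trivial h2⟩

end Pool.Agent.Results.MP_cbf1af_ag.SimultaneousApproximations
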