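import Pool.Agent.N208.AM.MainA

set_option autoImplicit false

/-!
# Motives of abelian type whose periods are in a solvable torsor; transcendence degree zero

Let `A` be an abelian variety over `ℚ̄` and let `M` be any André motive over `ℚ̄` in the tensor
category generated by `h^1(A)` and the Tate motives. (By theorems of André this class of motives,
for all `A`, contains the motives of products of curves, abelian varieties, K3 surfaces,
hyperkähler varieties, cubic fourfolds and Fermat hypersurfaces.)

**Theorem.**

1. If the comparison isomorphism `c_M` is a point of a torsor, defined over `ℚ̄`, of some *solvable*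
   algebraic group `G ⊆ GL(H_B(M))` over `ℚ`, then the Mumford-Tate group of `M` is commutative
   (`M` is of CM type). `G` is not assumed to be connected, reductive, or related to Hodge classes.
2. If moreover `A` has no factor of type IV then `M` is a sum of Tate motives: `G` solvable implies
   that the circle acts trivially in the Hodge structure of `M`.
3. If `A` has no factor of type IV and the period matrix of `M` has algebraic entries, that is
   `trdeg K(c_M) = 0`, then `MT(M) = 1`. So for these motives the equality
   `trdeg K(c_M) = dim MT(M)` of Grothendieck holds whenever one of the two sides is zero (if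
   `MT(M) = 1` then `c_M` is algebraic by the theorem of Deligne).

(Theorem and proof are due to helper208 of this team; the file was moved to this page from another one,
where it is no longer handed in, by helper622.)

The conjecture `trdeg K(c_M) = dim MT(M)` means that `c_M` is a generic point over `ℚ̄` of a torsor of
`MT(M)` (for motives of abelian type, where Hodge classes are absolute by Deligne), so that `G`
contains `MT(M)`; if `MT(M)` is not commutative it is not solvable, since it is reductive.
Statement 1 says that the periods of a motive of abelian type which is not of CM type are never in a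
torsor of a solvable group. For the motives `M = h^1(A)` this is a consequence of the theorem of
Wüstholz (`G` acts semisimply on `H^1(A)`, with the commutant `End(A)`). For a general `M`, for example
a motive of weight two attached to one simple factor of the Mumford-Tate group of `A`, or the
transcendental part of `h^{2k}(A)(k)`, no theorem on linear forms in the periods of `M` is available:
the theorem of Wüstholz only says something about the first cohomology.

## Motives

As `h^1(A)` is dual to `h^1(A)(1)`, the motive `M` is a direct factor of a sum of motives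
`h^1(A) ^ {⊗ r i} (w i)`. Its Betti realization is a space of families of multilinear forms with
rational values, in `r i` variables in `H_1(A, ℚ)`, with a basis `B`. It is the image of a motivated
projector, and the realizations of motivated classes are Hodge classes and de Rham-Betti classes; so
it is stable under the Lie algebra `𝔤` of the endomorphisms of `H_1(A, ℚ)` which annihilate all
classes that are Hodge classes and de Rham-Betti classes (`InLie`), and under the weights. The de Rham
realization has a basis which consists of combinations of products of elements of `H^1_dR(A / ℚ̄)`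
with algebraic coefficients. The matrix `P` of the periods expresses it in terms of the basis
`(2 π i) ^ (w i) B` of the Betti realization (`IsMotive`). (By theorems of Deligne and André all
subspaces which are stable under `𝔤` and the weights are obtained from motives.)

Nothing is assumed about periods: `AbVar` is the description of an abelian variety over `ℚ̄` by theta
functions (see `Pool/Agent/Y102/AVDefs.lean`, where it is explained why every abelian variety has it),
and the transcendence theorems which are used, the theorem of Schneider and Lang and the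
transcendence of `π`, are proved in this repository.

## Proof

Let `L` be the Lie algebra of `G`, `ρ` the action of `𝔤` on `M`, and let `𝔮` be the set of the `X` in
`𝔤` such that `ρ(X)` is in `L` up to a multiple of the weight operator. The rational components of the
matrices `D(P) P⁻¹`, `D` a derivation of `ℂ` over `ℚ̄`, are in `L` and are given by those of the period
matrix of `A` (`lam_log`); so `𝔮` contains the traceless components of the logarithmic derivatives of
the period matrix of `A`, and by the theorem of Schneider and Lang it acts semisimply on `H_1(A, ℚ)`,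
with the same commutant as `𝔤` (`qM_full`). The new ingredient is the following property of such
subalgebras (`der_le_of_ideal`): *every ideal `𝔫` of `𝔤` which contains `[𝔮, 𝔮]` contains `[𝔤, 𝔤]`*.
Otherwise there is, as the trace form of `𝔤` is not degenerate, an element `U` of `𝔤` which is
orthogonal to `𝔫` but not to `[𝔤, 𝔤]`; it commutes with `𝔫`, hence with `[𝔮, 𝔮]`, and it commutes
with the centre of `𝔮`, which is in the commutant of `𝔮`, that is of `𝔤`; so it commutes with `𝔮`,
hence with `𝔤`, and is orthogonal to `[𝔤, 𝔤]`, a contradiction.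

If `G` is solvable then `ρ([𝔮, 𝔮])` is zero, as it is a perfect Lie algebra in the Lie algebra of a
solvable group (`perfect_eq_zero`: the brackets of the Lie algebras of the terms of the derived
series of `G` are in the Lie algebras of the Zariski closures of the next terms). So `𝔫 = ker ρ`
contains `[𝔮, 𝔮]`, hence `[𝔤, 𝔤]`, and `ρ(𝔤)` is commutative. The complex structure is in `𝔤 ⊗ ℝ`.
-/

open Module Matrix Pool.Agent.Y102 Pool.Agent.W516.DR Pool.Agent.H204R3.GP

noncomputable section

namespace Pool.Agent.Results.MP_cbf1af_ag.SolvablePeriodTorsors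

variable {g : ℕ} (A : AbVar g)

/-! ### The Lie algebra -/

/-- The multilinear forms in `2m` variables in the rational homology. -/
abbrev Form (m : ℕ) : Type := MultilinearMap ℚ (fun _ : Fin m × Fin 2 => A.H1) ℚ

/-- `φ` is a de Rham-Betti class in `H^1(A) ^ {⊗ 2m} (m)`. -/
def IsDRB {m : ℕ} (φ : Form A m) : Prop :=
  IsDeRhamBettiForm QBar A.dR (2 * Real.pi * Complex.I) m φ

/-- `φ` is a Hodge class in `H^1(A) ^ {⊗ 2m} (m)`. -/
def IsHodge {m : ℕ} (φ : Form A m) : Prop := IsHodgeTensor (A.per : A.H1 →+ (Fin g → ℂ)) φ

/-- The endomorphism `X` annihilates the form `φ` (as a derivation). -/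
def Annihilates {m : ℕ} (X : Module.End ℚ A.H1) (φ : Form A m) : Prop :=
  ∀ v, ∑ k, φ (Function.update v k (X (v k))) = 0

/-- `X` is in the Lie algebra `𝔤`: it annihilates all classes that are Hodge classes and
de Rham-Betti classes. -/
def InLie (X : Module.End ℚ A.H1) : Prop :=
  ∀ (m : ℕ) (φ : Form A m), IsHodge A φ → IsDRB A φ → Annihilates A X φ

/-! ### Motives -/

variable {s n : ℕ} (r : Fin s → ℕ) (w : Fin s → ℤ)

/-- The Betti realization of the sum of the motives `h^1(A) ^ {⊗ r i} (w i)`: families of multilinear
forms in `r i` variables in the rational homology. -/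
abbrev Tensors : Type := ∀ i : Fin s, MultilinearMap ℚ (fun _ : Fin (r i) => A.H1) ℚ

variable {A r}

/-- The subspace with the basis `B` is the Betti realization of a direct factor `M` of the sum of the
motives `h^1(A) ^ {⊗ r i} (w i)`, and `P` is the matrix of the periods of `M` for the basis `B` and for
some basis of the de Rham realization of `M` over `ℚ̄`. -/
structure IsMotive (B : Fin n → Tensors A r) (P : Matrix (Fin n) (Fin n) ℂ) : Prop where
  /-- `B` is a basis of a subspace -/
  basis : LinearIndependent ℚ B
  /-- the subspace is stable under `𝔤` -/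
  lie : ∀ X, InLie A X → ∃ M : Matrix (Fin n) (Fin n) ℚ, ∀ a i v,
    ∑ k, B a i (Function.update v k (X (v k))) = ∑ b, M b a * B b i v
  /-- the subspace is stable under the weights -/
  weight : ∃ M : Matrix (Fin n) (Fin n) ℚ, ∀ a i v,
    ((r i : ℚ) - 2 * w i) * B a i v = ∑ b, M b a * B b i v
  /-- the de Rham realization has a basis of elements with algebraic coefficients in terms of the
  tensor products of the elements of the basis of `H^1_dR(A / ℚ̄)` -/
  deRham : ∃ c : Fin n → ∀ i : Fin s, (Fin (r i) → Fin g ⊕ Fin g) → ℂ,
    (∀ a i J, IsAlgebraic ℚ (c a i J)) ∧ ∀ a i (v : Fin (r i) → A.H1),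
      ∑ J, c a i J * ∏ k, A.dR (J k) (v k) =
        (2 * Real.pi * Complex.I) ^ (w i) * ∑ b, P b a * (B b i v : ℂ)
  /-- the matrix of the periods is invertible -/
  det : P.det ≠ 0

/-! ### Algebraic groups, torsors and the Mumford-Tate group -/

/-- A subgroup of `GL_R(ℂ)` defined by polynomials with rational coefficients. -/
def IsAlgebraicSubgroup {R : Type} [Fintype R] [DecidableEq R] (G : Subgroup (GL R ℂ)) : Prop :=
  ∃ I : Set (MvPolynomial (R × R) ℚ), ∀ x : GL R ℂ, x ∈ G ↔
    ∀ p ∈ I, MvPolynomial.aeval (fun b : R × R => (x : Matrix R R ℂ) b.1 b.2) p = 0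

/-- The torsor `G · T⁻¹` of `G`: the matrices `F` such that `F T` is an element of `G`. It is
defined over `ℚ̄` if `T` is a matrix with algebraic entries. -/
def torsor (G : Subgroup (GL (Fin n) ℂ)) (T : Matrix (Fin n) (Fin n) ℂ) :
    Set (Matrix (Fin n) (Fin n) ℂ) :=
  {F | ∃ x ∈ G, (x : Matrix (Fin n) (Fin n) ℂ) = F * T}

/-- The comparison isomorphism with the matrix `P` is in a torsor over `ℚ̄` of some solvable algebraic
group over `ℚ`. -/
def InSolvableTorsor (P : Matrix (Fin n) (Fin n) ℂ) : Prop :=
  ∃ G : Subgroup (GL (Fin n) ℂ), IsAlgebraicSubgroup G ∧ Group.IsSolvable G ∧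
    ∃ T : Matrix (Fin n) (Fin n) ℂ, (∀ i j, IsAlgebraic ℚ (T i j)) ∧ P ∈ torsor G T

variable (A) in
/-- The Hodge structure of `H^1(A)`: the complex number `z` acts on `H_1(A, ℝ) = ℂ ^ g` by
multiplication, and on `H^1(A, ℝ)` by the transposed map, here in the basis of `H^1(A, ℚ)` which is
dual to the basis of the lattice. -/
def hodge (z : ℂ) : Matrix (Fin (2 * g)) (Fin (2 * g)) ℂ :=
  Matrix.of fun i j => ((A.lam.repr (z • A.lam i) j : ℝ) : ℂ)

/-- `R` is the matrix of the action of the complex number `z` on `M`, in the Hodge structure given by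
those of `H^1(A)` and of the Tate motives (`z` acts on `ℚ(1)` by `(z z̄)⁻¹`). -/
def IsHodgeMatrix (B : Fin n → Tensors A r) (z : ℂ) (R : Matrix (Fin n) (Fin n) ℂ) : Prop :=
  ∀ a i (j : Fin (r i) → Fin (2 * g)),
    ∑ j' : Fin (r i) → Fin (2 * g), (∏ k, hodge A z (j k) (j' k)) *
        (B a i (fun k => Pi.single (j' k) 1) : ℂ) =
      (z * (starRingEnd ℂ) z) ^ (w i) * ∑ b, R b a * (B b i (fun k => Pi.single (j k) 1) : ℂ)

/-- The Mumford-Tate group of `M`: the smallest algebraic group over `ℚ` which contains the image of
the Deligne torus. -/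
def mumfordTate (B : Fin n → Tensors A r) : Subgroup (GL (Fin n) ℂ) :=
  sInf {G | IsAlgebraicSubgroup G ∧ ∀ z : ℂ, z ≠ 0 → ∃ x ∈ G,
    IsHodgeMatrix w B z (x : Matrix (Fin n) (Fin n) ℂ)}

variable (A) in
/-- There is no factor of type IV: the Rosati involution is trivial on the centre of the algebra of
the endomorphisms, that is, the centre contains no nonzero element which is skew-symmetric for the
polarization `A.om`. (The endomorphisms of the de Rham-Betti object `H_1(A)` are the endomorphisms of
`A` by the theorem of Bost, which is proved in `Pool.Agent.Y102.AbVar.hodge_end`.) -/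
def NoFactorOfTypeIV : Prop :=
  ∀ P : Module.End ℚ A.H1, IsDeRhamBettiEnd QBar A.dR P →
    (∀ Q : Module.End ℚ A.H1, IsDeRhamBettiEnd QBar A.dR Q → P * Q = Q * P) →
    (∀ u v, A.om (P u) v + A.om u (P v) = 0) → P = 0

/-- **Theorem.** Let `M` be a motive in the tensor category generated by `h^1(A)` and the Tate motives,
with the matrix `P` of periods.

1. If `P` is in a torsor of a solvable group then the Mumford-Tate group of `M` is commutative.
2. If `P` is in a torsor of a solvable group and `A` has no factor of type IV, then the circle acts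
   trivially on `M` (so `M` is a sum of Tate motives).
3. If the periods of `M` are algebraic and `A` has no factor of type IV, then the Mumford-Tate group
   of `M` is trivial. -/
theorem result {g s n : ℕ} (A : AbVar g) (r : Fin s → ℕ) (w : Fin s → ℤ)
    (B : Fin n → Tensors A r) (P : Matrix (Fin n) (Fin n) ℂ) (hM : IsMotive w B P) :
    (InSolvableTorsor P → ∀ x ∈ mumfordTate w B, ∀ y ∈ mumfordTate w B, x * y = y * x) ∧
    (NoFactorOfTypeIV A → InSolvableTorsor P → ∀ z : ℂ, ‖z‖ = 1 → IsHodgeMatrix w B z 1) ∧
    (NoFactorOfTypeIV A → (∀ i j, IsAlgebraic ℚ (P i j)) → mumfordTate w B = ⊥) := by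
  obtain ⟨hM', Wt, hW⟩ : N208.AM.Mot w B P ∧ ∃ Wt, N208.AM.WRel w B Wt := by
    have hwt : ∃ M, N208.AM.WRel w B M := by
      obtain ⟨M, h⟩ := hM.weight
      refine ⟨M, fun a i => MultilinearMap.ext fun v => ?_⟩
      rw [_root_.smul_apply, _root_.sum_apply, smul_eq_mul, h a i v]
      rfl
    refine ⟨⟨hM.basis, fun X hX => ?_, hwt, hM.det, hM.deRham⟩, hwt⟩
    obtain ⟨M, h⟩ := hM.lie X hX
    refine ⟨M, fun a i => MultilinearMap.ext fun v => ?_⟩
    rw [N208.AM.dact_apply, _root_.sum_apply, h a i v]
    rfl
  have hb : ∀ j : Fin (2 * g), A.bas j = Pi.single j 1 := fun j => by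
    unfold AbVar.bas
    rw [Pi.basisFun_apply]
  have hrel : ∀ z R, N208.AM.HRel w B z R → IsHodgeMatrix w B z R := by
    intro z R h a i j
    have h1 := h a i j
    simp only [hb] at h1
    exact h1
  have hA' : NoFactorOfTypeIV A → N208.AM.NT4 A := fun hA P hP hc hs =>
    hA P (A.mem_EA.1 hP) (fun Q hQ => hc Q (A.mem_EA.2 hQ)) hs
  have hkill : InSolvableTorsor P → ∀ X ∈ A.NA, ∀ Y ∈ A.NA,
      N208.AM.Rel B (X * Y - Y * X) 0 := by
    rintro ⟨G, hG, hs, T, hT, x, hx, hxT⟩ X hX Y hY
    have hdet : T.det ≠ 0 := by
      intro h0
      have h1 : (x : Matrix (Fin n) (Fin n) ℂ).det = 0 := by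
        rw [hxT, Matrix.det_mul, h0, mul_zero]
      exact (Matrix.GeneralLinearGroup.det x).ne_zero h1
    obtain ⟨T', h1, h2⟩ := Pool.Agent.R917.alg_inv hT hdet
    exact N208.AM.kill_of_solvable hM' hW
      ⟨Pool.Agent.R917.algGrp_of hG, T, T', h1, h2, x, hx, hxT⟩ hs hX hY
  refine ⟨fun hP x hx y hy => ?_, fun hA hP z hz => ?_, fun hA halg => ?_⟩
  · obtain ⟨G₁, h1, h2, h3⟩ := N208.AM.comm_of_kill hM' hW (hkill hP)
    have h4 : mumfordTate w B ≤ G₁ := sInf_le ⟨h1, fun z hz => by
      obtain ⟨x, hx, hx'⟩ := h2 z hz
      exact ⟨x, hx, hrel _ _ hx'⟩⟩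
    exact h3 x (h4 hx) y (h4 hy)
  · refine hrel _ _ (N208.AM.hrel_one_of_kill hM' hW
      (fun X hX => N208.AM.all_kill (hA' hA) (hkill hP) hX) ?_ (Or.inl hz))
    rintro rfl
    rw [norm_zero] at hz
    exact zero_ne_one hz
  · have hsol : InSolvableTorsor P := ⟨⊥, N208.AM.bot_alg n, inferInstance, P⁻¹,
      N208.AM.inv_alg hM.det halg, 1, Subgroup.mem_bot.2 rfl,
      (Matrix.mul_nonsing_inv _ (isUnit_iff_ne_zero.2 hM.det)).symm⟩
    have hk : ∀ X ∈ A.NA, N208.AM.Rel B X 0 := fun X hX =>
      N208.AM.all_kill (hA' hA) (hkill hsol) hX
    rw [eq_bot_iff]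
    exact sInf_le ⟨N208.AM.bot_alg n, fun z hz => ⟨1, Subgroup.mem_bot.2 rfl,
      hrel _ _ (N208.AM.hrel_one_of_kill hM' hW hk hz
        (Or.inr (N208.AM.Wt_zero hM' hW hk halg)))⟩⟩

end Pool.Agent.Results.MP_cbf1af_ag.SolvablePeriodTorsors
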